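import Mathlib
import Pool.Agent.N848.LT.Stm

/-!
# Project LT (helper848), part EXP (helper340)

The cubic field of discriminant 148 has class number one and one prime above 2.
-/

set_option autoImplicit false

namespace Pool.Agent.N340.LT.EXP

open NumberField IsDedekindDomain Module Polynomial

/-- the cubic polynomial -/
noncomputable def pol : ℚ[X] := X ^ 3 - X ^ 2 - 3 * X + 1

theorem pol_natDegree : pol.natDegree = 3 := by
  unfold pol; compute_degree!

theorem pol_monic : pol.Monic := by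
  unfold pol; monicity!

/-- no rational root -/
theorem no_root (x : ℚ) (hx : x ^ 3 - x ^ 2 - 3 * x + 1 = 0) : False := by
  have hint : IsIntegral ℤ x := by
    refine ⟨X ^ 3 - X ^ 2 - 3 * X + 1, by monicity!, ?_⟩
    simp only [eval₂_add, eval₂_sub, eval₂_mul, eval₂_pow, eval₂_X, eval₂_one, eval₂_ofNat]
    simpa using hx
  obtain ⟨n, rfl⟩ := IsIntegrallyClosed.isIntegral_iff.mp hint
  have h : n ^ 3 - n ^ 2 - 3 * n + 1 = 0 := by
    have := hx
    simp only [eq_intCast] at this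
    exact_mod_cast this
  have h1 : n * (-n ^ 2 + n + 3) = 1 := by linear_combination -h
  rcases Int.isUnit_iff.mp (IsUnit.of_mul_eq_one _ h1) with rfl | rfl <;> norm_num at h

theorem pol_irreducible : Irreducible pol := by
  rw [Polynomial.irreducible_iff_roots_eq_zero_of_degree_le_three
    (by rw [pol_natDegree]; norm_num) (by rw [pol_natDegree])]
  rw [Multiset.eq_zero_iff_forall_notMem]
  intro x hx
  rw [mem_roots pol_monic.ne_zero, IsRoot.def] at hx
  unfold pol at hx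
  simp at hx
  exact no_root x hx

section

variable {k : Type} [Field k] [NumberField k] {α : k}

theorem minpoly_eq (hα : α ^ 3 - α ^ 2 - 3 * α + 1 = 0) : minpoly ℚ α = pol := by
  symm
  refine minpoly.eq_of_irreducible_of_monic pol_irreducible ?_ pol_monic
  unfold pol
  simp only [map_add, map_sub, map_mul, map_pow, aeval_X, map_one, map_ofNat]
  exact hα

theorem linInd (hα : α ^ 3 - α ^ 2 - 3 * α + 1 = 0) :
    LinearIndependent ℚ (fun i : Fin 3 => α ^ (i : ℕ)) := by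
  have h := linearIndependent_pow (K := ℚ) α
  have hd : (minpoly ℚ α).natDegree = 3 := by rw [minpoly_eq hα, pol_natDegree]
  rw [hd] at h
  exact h

/-- the basis of powers -/
noncomputable def bas (hα : α ^ 3 - α ^ 2 - 3 * α + 1 = 0) (hk : finrank ℚ k = 3) :
    Basis (Fin 3) ℚ k :=
  basisOfLinearIndependentOfCardEqFinrank (linInd hα) (by simp [hk])

theorem bas_apply (hα : α ^ 3 - α ^ 2 - 3 * α + 1 = 0) (hk : finrank ℚ k = 3) (i : Fin 3) :
    bas hα hk i = α ^ (i : ℕ) := by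
  simp [bas]

theorem repr_lin (hα : α ^ 3 - α ^ 2 - 3 * α + 1 = 0) (hk : finrank ℚ k = 3) (a b c : ℚ)
    (x : k) (hx : x = algebraMap ℚ k a + algebraMap ℚ k b * α + algebraMap ℚ k c * α ^ 2) :
    (bas hα hk).repr x = Finsupp.single 0 a + Finsupp.single 1 b + Finsupp.single 2 c := by
  have h : x = a • bas hα hk 0 + b • bas hα hk 1 + c • bas hα hk 2 := by
    rw [bas_apply, bas_apply, bas_apply, Algebra.smul_def, Algebra.smul_def, Algebra.smul_def, hx]
    simp
  rw [h]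
  simp

theorem trace_eq (hα : α ^ 3 - α ^ 2 - 3 * α + 1 = 0) (hk : finrank ℚ k = 3) (x : k) :
    Algebra.trace ℚ k x = (bas hα hk).repr (x * 1) 0 + (bas hα hk).repr (x * α) 1 +
      (bas hα hk).repr (x * α ^ 2) 2 := by
  rw [Algebra.trace_eq_matrix_trace (bas hα hk), Matrix.trace, Fin.sum_univ_three]
  simp only [Matrix.diag_apply, Algebra.leftMulMatrix_eq_repr_mul, bas_apply]
  simp

theorem tr0 (hk : finrank ℚ k = 3) : Algebra.trace ℚ k (1 : k) = 3 := by
  have := Algebra.trace_algebraMap (R := ℚ) (S := k) 1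
  rw [map_one, hk] at this
  rw [this]; norm_num

theorem tr1 (hα : α ^ 3 - α ^ 2 - 3 * α + 1 = 0) (hk : finrank ℚ k = 3) :
    Algebra.trace ℚ k α = 1 := by
  rw [trace_eq hα hk]
  rw [repr_lin hα hk 0 1 0 (α * 1) (by simp),
    repr_lin hα hk 0 0 1 (α * α) (by simp; ring),
    repr_lin hα hk (-1) 3 1 (α * α ^ 2) (by simp; linear_combination hα)]
  simp

theorem tr2 (hα : α ^ 3 - α ^ 2 - 3 * α + 1 = 0) (hk : finrank ℚ k = 3) :
    Algebra.trace ℚ k (α ^ 2) = 7 := by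
  rw [trace_eq hα hk]
  rw [repr_lin hα hk 0 0 1 (α ^ 2 * 1) (by simp),
    repr_lin hα hk (-1) 3 1 (α ^ 2 * α) (by simp; linear_combination hα),
    repr_lin hα hk (-1) 2 4 (α ^ 2 * α ^ 2) (by simp; linear_combination (α + 1) * hα)]
  simp
  norm_num

theorem tr3 (hα : α ^ 3 - α ^ 2 - 3 * α + 1 = 0) (hk : finrank ℚ k = 3) :
    Algebra.trace ℚ k (α ^ 3) = 7 := by
  have h : α ^ 3 = α ^ 2 + (3 : ℚ) • α - (1 : k) := by
    rw [Algebra.smul_def]; simp; linear_combination hα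
  rw [h, map_sub, map_add, map_smul, tr0 hk, tr1 hα hk, tr2 hα hk]
  norm_num

theorem tr4 (hα : α ^ 3 - α ^ 2 - 3 * α + 1 = 0) (hk : finrank ℚ k = 3) :
    Algebra.trace ℚ k (α ^ 4) = 27 := by
  have h : α ^ 4 = (4 : ℚ) • α ^ 2 + (2 : ℚ) • α - (1 : k) := by
    rw [Algebra.smul_def, Algebra.smul_def]; simp; linear_combination (α + 1) * hα
  rw [h, map_sub, map_add, map_smul, map_smul, tr0 hk, tr1 hα hk, tr2 hα hk]
  norm_num

theorem discr_pow (hα : α ^ 3 - α ^ 2 - 3 * α + 1 = 0) (hk : finrank ℚ k = 3) :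
    Algebra.discr ℚ (fun i : Fin 3 => α ^ (i : ℕ)) = 148 := by
  rw [Algebra.discr_def, Matrix.det_fin_three]
  simp only [Algebra.traceMatrix_apply, Algebra.traceForm_apply, ← pow_add]
  simp only [Fin.val_zero, Fin.val_one, Fin.val_two, Nat.reduceAdd, pow_zero, pow_one]
  rw [tr0 hk, tr1 hα hk, tr2 hα hk, tr3 hα hk, tr4 hα hk]
  norm_num

omit [NumberField k] in
theorem isInt (hα : α ^ 3 - α ^ 2 - 3 * α + 1 = 0) : IsIntegral ℤ α := by
  refine ⟨X ^ 3 - X ^ 2 - 3 * X + 1, by monicity!, ?_⟩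
  simp only [eval₂_add, eval₂_sub, eval₂_mul, eval₂_pow, eval₂_X, eval₂_one, eval₂_ofNat]
  exact hα

theorem discr_le (hα : α ^ 3 - α ^ 2 - 3 * α + 1 = 0) (hk : finrank ℚ k = 3) :
    |discr k| ≤ 148 := by
  set a : 𝓞 k := ⟨α, isInt hα⟩ with ha
  have haα : ((a : 𝓞 k) : k) = α := rfl
  have h148 : Algebra.discr ℤ (fun i : Fin 3 => a ^ (i : ℕ)) = 148 := by
    have h : ((Algebra.discr ℤ (fun i : Fin 3 => a ^ (i : ℕ)) : ℤ) : ℚ) =
        Algebra.discr ℚ (fun i : Fin 3 => α ^ (i : ℕ)) := by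
      rw [Algebra.discr_def, Algebra.discr_def, Matrix.det_fin_three, Matrix.det_fin_three]
      simp only [Algebra.traceMatrix_apply, Algebra.traceForm_apply]
      push_cast
      simp only [Algebra.coe_trace_int (K := k)]
      simp [haα]
    rw [discr_pow hα hk] at h
    exact_mod_cast h
  have hr : finrank ℤ (𝓞 k) = 3 := by rw [RingOfIntegers.rank, hk]
  let b' : Basis (Fin 3) ℤ (𝓞 k) := Module.finBasisOfFinrankEq ℤ (𝓞 k) hr
  let P : Matrix (Fin 3) (Fin 3) ℤ := fun i j => b'.repr (a ^ (i : ℕ)) j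
  have hP : (P.map (algebraMap ℤ (𝓞 k))).mulVec b' = fun i : Fin 3 => a ^ (i : ℕ) := by
    funext i
    rw [Matrix.mulVec, dotProduct]
    refine Eq.trans (Finset.sum_congr rfl fun j _ => ?_) (b'.sum_repr (a ^ (i : ℕ)))
    rw [Matrix.map_apply, ← Algebra.smul_def]
  have h1 := Algebra.discr_of_matrix_mulVec (A := ℤ) (b' : Fin 3 → 𝓞 k) P
  rw [hP, h148, discr_eq_discr k b'] at h1
  have hP0 : P.det ^ 2 ≠ 0 := by
    intro h0
    rw [h0] at h1
    norm_num at h1
  have h2 : |P.det ^ 2| * |discr k| = 148 := by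
    rw [← abs_mul, ← h1]; norm_num
  have h3 : 1 ≤ |P.det ^ 2| := Int.one_le_abs hP0
  nlinarith [abs_nonneg (discr k)]

/-- the prime element -/
theorem facts (hα : α ^ 3 - α ^ 2 - 3 * α + 1 = 0) (hk : finrank ℚ k = 3) :
    ∃ π : 𝓞 k, Ideal.absNorm (Ideal.span {π}) = 2 ∧ ∃ ε : 𝓞 k, π ^ 3 = 2 * ε := by
  set a : 𝓞 k := ⟨α, isInt hα⟩ with ha
  have hr : finrank ℤ (𝓞 k) = 3 := by rw [RingOfIntegers.rank, hk]
  have haa : a ^ 3 - a ^ 2 - 3 * a + 1 = 0 := by
    apply RingOfIntegers.coe_injective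
    push_cast
    exact hα
  refine ⟨a - 1, ?_, 1 + (a - 1) - (a - 1) ^ 2, by linear_combination haa⟩
  have he : (1 + (a - 1) - (a - 1) ^ 2) * (-5 + 3 * (a - 1) + 2 * (a - 1) ^ 2) = 1 := by
    linear_combination (-2 * a + 5) * haa
  have hu : IsUnit (1 + (a - 1) - (a - 1) ^ 2) := IsUnit.of_mul_eq_one _ he
  have h3 : Ideal.absNorm (Ideal.span {a - 1}) ^ 3 = 8 := by
    rw [← map_pow, Ideal.span_singleton_pow,
      show (a - 1) ^ 3 = (2 : 𝓞 k) * (1 + (a - 1) - (a - 1) ^ 2) by linear_combination haa,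
      Ideal.span_singleton_mul_right_unit hu, Ideal.absNorm_span_singleton,
      show (2 : 𝓞 k) = algebraMap ℤ (𝓞 k) 2 by simp, Algebra.norm_algebraMap, hr]
    norm_num
  have h8 : Ideal.absNorm (Ideal.span {a - 1}) ^ 3 = 2 ^ 3 := by rw [h3]; norm_num
  exact Nat.pow_left_injective (by norm_num) h8

theorem eq_span (hα : α ^ 3 - α ^ 2 - 3 * α + 1 = 0) (hk : finrank ℚ k = 3) :
    ∃ π : 𝓞 k, ∀ P : Ideal (𝓞 k), P.IsPrime → (2 : 𝓞 k) ∈ P → P = Ideal.span {π} := by
  obtain ⟨π, hπ, ε, hε⟩ := facts hα hk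
  refine ⟨π, fun P hP h2 => ?_⟩
  have hmem : π ∈ P := by
    apply hP.mem_of_pow_mem 3
    rw [hε]
    exact Ideal.mul_mem_right _ _ h2
  have hle : Ideal.span {π} ≤ P := by
    rw [Ideal.span_singleton_le_iff_mem]; exact hmem
  have hpr : (Ideal.span {π}).IsPrime := by
    apply Ideal.isPrime_of_irreducible_absNorm
    rw [hπ]
    exact Nat.prime_two
  have hne : Ideal.span {π} ≠ ⊥ := by
    intro h
    rw [h] at hπ
    simp at hπ
  have hmax : (Ideal.span {π}).IsMaximal := hpr.isMaximal hne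
  exact (hmax.eq_of_le hP.ne_top hle).symm

end

open Pool.Agent.N848.LT in
theorem nsq {k : Type} [Field k] [NumberField k] {α : k}
    (hα : α ^ 3 - α ^ 2 - 3 * α + 1 = 0) (hk : finrank ℚ k = 3) : NSQ k 2 := by
  obtain ⟨π, hπ⟩ := eq_span hα hk
  intro v v' hv hv'
  ext1
  rw [hπ v.asIdeal v.isPrime (by simpa using hv), hπ v'.asIdeal v'.isPrime (by simpa using hv')]

open Pool.Agent.N848.LT in
/-- the part EXP -/
theorem t_EXP (h : S_EXR) : S_EXP := by
  intro k _ _ α hk hα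
  refine ⟨?_, nsq hα hk⟩
  obtain ⟨hreal, -⟩ := h.2 k α hk hα
  obtain ⟨π, hπ⟩ := eq_span hα hk
  apply RingOfIntegers.isPrincipalIdealRing_of_isPrincipal_of_norm_le_of_isPrime
  intro I hI hn
  have hc : InfinitePlace.nrComplexPlaces k = 0 :=
    nrComplexPlaces_eq_zero_iff.mpr hreal
  have hd := discr_le hα hk
  rw [hc, hk] at hn
  have hsq : √(|discr k| : ℝ) ≤ 12.2 := by
    rw [Real.sqrt_le_left (by norm_num)]
    have : ((|discr k| : ℤ) : ℝ) ≤ 148 := by exact_mod_cast hd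
    push_cast at this
    refine this.trans (by norm_num)
  have hn' : ((Ideal.absNorm (I : Ideal (𝓞 k)) : ℕ) : ℝ) < 3 := by
    refine hn.trans_lt ?_
    norm_num [Nat.factorial]
    norm_num at hsq ⊢
    linarith
  have hn3 : Ideal.absNorm (I : Ideal (𝓞 k)) < 3 := by exact_mod_cast hn'
  have h1 : Ideal.absNorm (I : Ideal (𝓞 k)) ≠ 1 := by
    intro h1
    rw [Ideal.absNorm_eq_one_iff] at h1
    exact hI.ne_top h1
  have h0 : Ideal.absNorm (I : Ideal (𝓞 k)) ≠ 0 := Ideal.absNorm_ne_zero_of_nonZeroDivisors I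
  have h2 : Ideal.absNorm (I : Ideal (𝓞 k)) = 2 := by omega
  have hmem : (2 : 𝓞 k) ∈ (I : Ideal (𝓞 k)) := by
    have := Ideal.absNorm_mem (I : Ideal (𝓞 k))
    rw [h2] at this
    simpa using this
  rw [hπ _ hI hmem]
  exact ⟨⟨π, rfl⟩⟩

end Pool.Agent.N340.LT.EXP
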